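import Mathlib

set_option autoImplicit false

namespace Pool.Agent.Deltoid

open MvPolynomial in
/-- The deltoid (tricuspidal quartic with its bitangent at infinity). -/
noncomputable def dp : MvPolynomial (Fin 2) ℂ :=
  X 0 ^ 2 * X 1 ^ 2 - C 4 * X 0 ^ 3 - C 4 * X 1 ^ 3 + C 18 * X 0 * X 1 - C 27

theorem eval_dp (z : Fin 2 → ℂ) : MvPolynomial.eval z dp =
    z 0 ^ 2 * z 1 ^ 2 - 4 * z 0 ^ 3 - 4 * z 1 ^ 3 + 18 * z 0 * z 1 - 27 := by
  simp [dp]

theorem eval_pd0 (z : Fin 2 → ℂ) : MvPolynomial.eval z (MvPolynomial.pderiv 0 dp) =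
    2 * z 0 * z 1 ^ 2 - 12 * z 0 ^ 2 + 18 * z 1 := by
  simp [dp, MvPolynomial.pderiv_X, Pi.single_apply]
  ring

theorem eval_pd1 (z : Fin 2 → ℂ) : MvPolynomial.eval z (MvPolynomial.pderiv 1 dp) =
    2 * z 0 ^ 2 * z 1 - 12 * z 1 ^ 2 + 18 * z 0 := by
  simp [dp, MvPolynomial.pderiv_X, Pi.single_apply]
  ring

section irr
open Polynomial

theorem cubic_no_root (a b c e : ℂ)
    (h : 4 * (C e * X ^ 3 + C c * X ^ 2 + C b * X + C a : ℂ[X]) ^ 3
      - X ^ 2 * (C e * X ^ 3 + C c * X ^ 2 + C b * X + C a) ^ 2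
      - 18 * X * (C e * X ^ 3 + C c * X ^ 2 + C b * X + C a) + 4 * X ^ 3 + 27 = 0) : False := by
  have key : C (4 * e ^ 3) * X ^ 9 + C (12 * e ^ 2 * c - e ^ 2) * X ^ 8
      + C (12 * e ^ 2 * b + 12 * e * c ^ 2 - 2 * e * c) * X ^ 7
      + C (12 * e ^ 2 * a + 24 * e * c * b + 4 * c ^ 3 - 2 * e * b - c ^ 2) * X ^ 6
      + C (24 * e * c * a + 12 * e * b ^ 2 + 12 * c ^ 2 * b - 2 * e * a - 2 * c * b) * X ^ 5
      + C (24 * e * b * a + 12 * c ^ 2 * a + 12 * c * b ^ 2 - 2 * c * a - b ^ 2 - 18 * e) * X ^ 4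
      + C (12 * e * a ^ 2 + 24 * c * b * a + 4 * b ^ 3 - 2 * b * a - 18 * c + 4) * X ^ 3
      + C (12 * c * a ^ 2 + 12 * b ^ 2 * a - a ^ 2 - 18 * b) * X ^ 2
      + C (12 * b * a ^ 2 - 18 * a) * X + C (4 * a ^ 3 + 27) = (0 : ℂ[X]) := by
    rw [← h]
    simp only [map_add, map_sub, map_mul, map_pow, map_ofNat]
    ring
  have c9 := congrArg (fun p => coeff p 9) key
  have c6 := congrArg (fun p => coeff p 6) key
  have c5 := congrArg (fun p => coeff p 5) key
  have c4 := congrArg (fun p => coeff p 4) key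
  have c1 := congrArg (fun p => coeff p 1) key
  have c0 := congrArg (fun p => coeff p 0) key
  simp [coeff_X, coeff_X_pow, coeff_C, -map_add, -map_mul, -map_sub, -map_pow] at c9 c6 c5 c4 c1 c0
  have he : e = 0 := c9
  subst he
  have ha : a ≠ 0 := by
    rintro rfl
    norm_num at c0
  have hab : a * b = 3 / 2 := by
    have : a * (12 * (a * b) - 18) = 0 := by linear_combination c1
    rcases mul_eq_zero.mp this with h | h
    · exact absurd h ha
    · linear_combination h / 12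
  have hb : b ≠ 0 := by
    rintro rfl
    norm_num at hab
  have hc : c ^ 2 * (4 * c - 1) = 0 := by linear_combination c6
  rcases mul_eq_zero.mp hc with h | h
  · have hc0 : c = 0 := by simpa using h
    subst hc0
    have : b ^ 2 = 0 := by linear_combination -c4
    exact hb (by simpa using this)
  · have hc1 : c = 1 / 4 := by linear_combination h / 4
    subst hc1
    have : b = 0 := by linear_combination 4 * c5
    exact hb this

theorem no_root (r : ℂ[X])
    (h : 4 * r ^ 3 - X ^ 2 * r ^ 2 - 18 * X * r + 4 * X ^ 3 + 27 = 0) : False := by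
  have hd : r ∣ C (4 : ℂ) * X ^ 3 + C 27 := by
    refine ⟨-(4 * r ^ 2 - X ^ 2 * r - 18 * X), ?_⟩
    have e4 : (C (4 : ℂ) : ℂ[X]) = 4 := map_ofNat C 4
    have e27 : (C (27 : ℂ) : ℂ[X]) = 27 := map_ofNat C 27
    rw [e4, e27]
    linear_combination h
  have hne : (C (4 : ℂ) * X ^ 3 + C 27 : ℂ[X]) ≠ 0 := by
    intro h0
    have := congrArg (fun p => coeff p 0) h0
    simp [coeff_X_pow, coeff_C] at this
  have hdeg : (C (4 : ℂ) * X ^ 3 + C 27 : ℂ[X]).natDegree ≤ 3 := by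
    compute_degree
  have hr : r.natDegree < 4 := lt_of_le_of_lt ((natDegree_le_of_dvd hd hne).trans hdeg) (by norm_num)
  have hs := as_sum_range_C_mul_X_pow' r hr
  simp only [Finset.sum_range_succ, Finset.sum_range_zero, zero_add, pow_zero, mul_one, pow_one] at hs
  refine cubic_no_root (r.coeff 0) (r.coeff 1) (r.coeff 2) (r.coeff 3) ?_
  have hs' : C (r.coeff 3) * X ^ 3 + C (r.coeff 2) * X ^ 2 + C (r.coeff 1) * X + C (r.coeff 0) = r := by
    conv_rhs => rw [hs]
    ring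
  rw [hs']
  exact h

theorem irr_dp : Irreducible dp := by
  rw [← MulEquiv.irreducible_iff (MvPolynomial.finSuccEquiv ℂ 1)]
  set y : MvPolynomial (Fin 1) ℂ := MvPolynomial.X 0 with hy
  let M : Polynomial (MvPolynomial (Fin 1) ℂ) :=
    X ^ 3 - C (MvPolynomial.C (1/4) * y ^ 2) * X ^ 2 - C (MvPolynomial.C (9/2) * y) * X
      + C (y ^ 3 + MvPolynomial.C (27/4))
  have hM : MvPolynomial.finSuccEquiv ℂ 1 dp = C (MvPolynomial.C (-4)) * M := by
    have h1 : (1 : Fin 2) = Fin.succ (0 : Fin 1) := rfl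
    have hC : ∀ a : ℂ, MvPolynomial.finSuccEquiv ℂ 1 (MvPolynomial.C a) = C (MvPolynomial.C a) := by
      intro a
      have := MvPolynomial.finSuccEquiv_comp_C_eq_C (R := ℂ) 1
      have h2 : (MvPolynomial.finSuccEquiv ℂ 1).symm (C (MvPolynomial.C a)) = MvPolynomial.C a :=
        congrArg (fun f => f a) this
      exact ((AlgEquiv.symm_apply_eq _).mp h2).symm
    have hX0 := MvPolynomial.finSuccEquiv_X_zero (R := ℂ) (n := 1)
    have hX1 : MvPolynomial.finSuccEquiv ℂ 1 (MvPolynomial.X 1) = C y := by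
      rw [h1, MvPolynomial.finSuccEquiv_X_succ]
    have r1 : (MvPolynomial.C (-4 : ℂ) : MvPolynomial (Fin 1) ℂ) * MvPolynomial.C (1/4) = -1 := by
      rw [← map_mul]; norm_num
    have r2 : (MvPolynomial.C (-4 : ℂ) : MvPolynomial (Fin 1) ℂ) * MvPolynomial.C (9/2) = - MvPolynomial.C 18 := by
      rw [← map_mul, ← map_neg]; norm_num
    have r3 : (MvPolynomial.C (-4 : ℂ) : MvPolynomial (Fin 1) ℂ) * MvPolynomial.C (27/4) = - MvPolynomial.C 27 := by
      rw [← map_mul, ← map_neg]; norm_num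
    have r4 : (MvPolynomial.C (-4 : ℂ) : MvPolynomial (Fin 1) ℂ) = - MvPolynomial.C 4 := by
      rw [← map_neg]
    have s1 : C (MvPolynomial.C (-4 : ℂ)) * C (MvPolynomial.C (1/4 : ℂ) * y ^ 2) = - (C y) ^ 2 := by
      rw [← map_mul, ← mul_assoc, r1]; simp
    have s2 : C (MvPolynomial.C (-4 : ℂ)) * C (MvPolynomial.C (9/2 : ℂ) * y) = - (C (MvPolynomial.C 18) * C y) := by
      rw [← map_mul, ← mul_assoc, r2]; simp
    have s3 : C (MvPolynomial.C (-4 : ℂ)) * C (y ^ 3 + MvPolynomial.C (27/4 : ℂ)) =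
        - (C (MvPolynomial.C 4) * (C y) ^ 3) - C (MvPolynomial.C 27) := by
      rw [← map_mul, mul_add, r3, r4]; simp [sub_eq_add_neg]
    simp only [dp, map_sub, map_add, map_mul, map_pow, hX0, hX1]
    simp only [hC, M]
    have s4 : C (MvPolynomial.C (-4 : ℂ)) = - (C (MvPolynomial.C 4) : Polynomial (MvPolynomial (Fin 1) ℂ)) := by
      rw [r4]; simp
    have : C (MvPolynomial.C (-4 : ℂ)) * (X ^ 3 - C (MvPolynomial.C (1/4) * y ^ 2) * X ^ 2 - C (MvPolynomial.C (9/2) * y) * X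
      + C (y ^ 3 + MvPolynomial.C (27/4))) = C (MvPolynomial.C (-4 : ℂ)) * X ^ 3
        - (C (MvPolynomial.C (-4 : ℂ)) * C (MvPolynomial.C (1/4 : ℂ) * y ^ 2)) * X ^ 2
        - (C (MvPolynomial.C (-4 : ℂ)) * C (MvPolynomial.C (9/2 : ℂ) * y)) * X
        + C (MvPolynomial.C (-4 : ℂ)) * C (y ^ 3 + MvPolynomial.C (27/4 : ℂ)) := by ring
    rw [this, s1, s2, s3, s4]
    ring
  have hu : IsUnit (C (MvPolynomial.C (-4 : ℂ)) : Polynomial (MvPolynomial (Fin 1) ℂ)) := by
    refine IsUnit.map C (IsUnit.map MvPolynomial.C ?_)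
    exact isUnit_iff_ne_zero.mpr (by norm_num)
  rw [hM, irreducible_isUnit_mul hu]
  have hdM : M.natDegree = 3 := by
    simp only [M]
    compute_degree!
  have hmon : M.Monic := by
    simp only [M]
    monicity!
  rw [hmon.irreducible_iff_roots_eq_zero_of_degree_le_three (by rw [hdM]; norm_num) (by rw [hdM])]
  rw [Multiset.eq_zero_iff_forall_notMem]
  intro r hr
  rw [mem_roots hmon.ne_zero, IsRoot.def] at hr
  simp only [M, eval_add, eval_sub, eval_mul, eval_pow, eval_X, eval_C] at hr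
  let g : MvPolynomial (Fin 1) ℂ →ₐ[ℂ] ℂ[X] := MvPolynomial.aeval (fun _ => X)
  have hgy : g y = X := by simp [g, hy]
  have hr2 := congrArg g hr
  have hgC : ∀ a : ℂ, g (MvPolynomial.C a) = C a := by
    intro a; simp [g]
  simp only [map_add, map_sub, map_mul, map_pow, map_zero, hgy, hgC] at hr2
  refine no_root (g r) ?_
  have t1 : (4 : ℂ[X]) * C (1/4 : ℂ) = 1 := by
    have : (4 : ℂ[X]) = C 4 := (map_ofNat C 4).symm
    rw [this, ← map_mul]; norm_num
  have t2 : (4 : ℂ[X]) * C (9/2 : ℂ) = 18 := by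
    have : (4 : ℂ[X]) = C 4 := (map_ofNat C 4).symm
    have h18 : (18 : ℂ[X]) = C 18 := (map_ofNat C 18).symm
    rw [this, h18, ← map_mul]; norm_num
  have t3 : (4 : ℂ[X]) * C (27/4 : ℂ) = 27 := by
    have : (4 : ℂ[X]) = C 4 := (map_ofNat C 4).symm
    have h27 : (27 : ℂ[X]) = C 27 := (map_ofNat C 27).symm
    rw [this, h27, ← map_mul]; norm_num
  linear_combination 4 * hr2 + (X ^ 2 * g r ^ 2) * t1 + (X * g r) * t2 - t3

end irr

/-- The parametrisation. -/
noncomputable def ph (t : ℂ) : Fin 2 → ℂ := ![2 * t + (t⁻¹) ^ 2, 2 * t⁻¹ + t ^ 2]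

theorem ph_zero (t : ℂ) : ph t 0 = 2 * t + (t⁻¹) ^ 2 := rfl
theorem ph_one (t : ℂ) : ph t 1 = 2 * t⁻¹ + t ^ 2 := rfl

theorem ph_mem {t : ℂ} (ht : t ≠ 0) : MvPolynomial.eval (ph t) dp = 0 := by
  rw [eval_dp, ph_zero, ph_one]
  field_simp
  ring

theorem ph_inj {s t : ℂ} (hs : s ≠ 0) (ht : t ≠ 0) (h : ph s = ph t) : s = t := by
  have h0 := congrFun h 0
  have h1 := congrFun h 1
  rw [ph_zero, ph_zero] at h0
  rw [ph_one, ph_one] at h1
  have hs1 : s * s⁻¹ = 1 := mul_inv_cancel₀ hs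
  have ht1 : t * t⁻¹ = 1 := mul_inv_cancel₀ ht
  have h0' : 2 * s ^ 3 * t ^ 2 + t ^ 2 = 2 * t ^ 3 * s ^ 2 + s ^ 2 := by
    field_simp at h0
    linear_combination h0
  have h1' : 2 * t + s ^ 3 * t = 2 * s + t ^ 3 * s := by
    field_simp at h1
    linear_combination h1
  have e1 : (s - t) ^ 2 * (s * t ^ 2 - 1) = 0 := by
    linear_combination h0' - t * h1'
  have e2 : (t - s) ^ 2 * (t * s ^ 2 - 1) = 0 := by
    linear_combination -h0' + s * h1'
  by_contra hne
  have hst : (s - t) ^ 2 ≠ 0 := pow_ne_zero _ (sub_ne_zero.mpr hne)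
  have hts : (t - s) ^ 2 ≠ 0 := pow_ne_zero _ (sub_ne_zero.mpr (Ne.symm hne))
  have a1 : s * t ^ 2 - 1 = 0 := (mul_eq_zero.mp e1).resolve_left hst
  have a2 : t * s ^ 2 - 1 = 0 := (mul_eq_zero.mp e2).resolve_left hts
  have : s * t * (t - s) = 0 := by linear_combination a1 - a2
  rcases mul_eq_zero.mp this with h | h
  · exact (mul_ne_zero hs ht) h
  · exact hne (sub_eq_zero.mp h).symm

theorem exists_param {z : Fin 2 → ℂ} (hz : MvPolynomial.eval z dp = 0) :
    ∃ t : ℂ, t ≠ 0 ∧ ph t = z := by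
  rw [eval_dp] at hz
  obtain ⟨a, ha⟩ : ∃ a : ℂ, a ^ 3 - z 0 * a ^ 2 + z 1 * a - 1 = 0 := by
    have hdeg : (Polynomial.X ^ 3 - Polynomial.C (z 0) * Polynomial.X ^ 2
        + Polynomial.C (z 1) * Polynomial.X - Polynomial.C 1 : Polynomial ℂ).natDegree = 3 := by
      compute_degree!
    obtain ⟨a, ha⟩ := IsAlgClosed.exists_root (Polynomial.X ^ 3 - Polynomial.C (z 0) * Polynomial.X ^ 2
        + Polynomial.C (z 1) * Polynomial.X - Polynomial.C 1 : Polynomial ℂ) (by
        intro h0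
        have := Polynomial.natDegree_eq_of_degree_eq_some h0
        rw [hdeg] at this
        norm_num at this)
    refine ⟨a, ?_⟩
    simpa [Polynomial.IsRoot.def, -map_one] using ha
  obtain ⟨d, hd⟩ : ∃ d : ℂ, d ^ 2 = (a - z 0) ^ 2 - 4 * (z 1 + a * (a - z 0)) := by
    obtain ⟨d, hd⟩ := IsAlgClosed.exists_pow_nat_eq ((a - z 0) ^ 2 - 4 * (z 1 + a * (a - z 0))) (n := 2) (by norm_num)
    exact ⟨d, hd⟩
  obtain ⟨b, hb⟩ : ∃ b : ℂ, b ^ 2 + (a - z 0) * b + (z 1 + a * (a - z 0)) = 0 := by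
    refine ⟨(-(a - z 0) + d) / 2, ?_⟩
    linear_combination hd / 4
  obtain ⟨c, hc⟩ : ∃ c : ℂ, c = z 0 - a - b := ⟨_, rfl⟩
  have hx : z 0 = a + b + c := by linear_combination -hc
  have hy : z 1 = a * b + b * c + c * a := by
    rw [hc]; linear_combination hb
  have habc : a * b * c = 1 := by
    rw [hx, hy] at ha
    linear_combination ha
  have hdisc : ((a - b) * (b - c) * (c - a)) ^ 2 = 0 := by
    rw [hx, hy] at hz
    linear_combination hz + (-4 * (a + b + c) ^ 3 + 18 * (a + b + c) * (a * b + b * c + c * a)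
      - 27 * (a * b * c + 1)) * habc
  have hz3 : (a - b) * (b - c) * (c - a) = 0 := by simpa using hdisc
  have main : ∀ t c' : ℂ, t * t * c' = 1 → z 0 = t + t + c' → z 1 = t * t + t * c' + c' * t →
      ∃ t : ℂ, t ≠ 0 ∧ ph t = z := by
    intro t c' h1 h2 h3
    have ht : t ≠ 0 := by
      rintro rfl
      norm_num at h1
    have hc' : c' = (t⁻¹) ^ 2 := by
      field_simp
      linear_combination h1
    refine ⟨t, ht, ?_⟩
    funext i
    fin_cases i
    · show ph t 0 = z 0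
      rw [ph_zero, h2, hc']; ring
    · show ph t 1 = z 1
      rw [ph_one, h3, hc']
      field_simp
      ring
  rcases mul_eq_zero.mp hz3 with h | h
  · rcases mul_eq_zero.mp h with h | h
    · have : a = b := sub_eq_zero.mp h
      subst this
      exact main a c habc hx (by rw [hy])
    · have : b = c := sub_eq_zero.mp h
      subst this
      exact main b a (by linear_combination habc) (by rw [hx]; ring) (by rw [hy]; ring)
  · have : c = a := sub_eq_zero.mp h
    subst this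
    exact main c b (by linear_combination habc) (by rw [hx]; ring) (by rw [hy]; ring)

end Pool.Agent.Deltoid
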