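import Pool.Agent.Deltoid.Alg

set_option autoImplicit false

namespace Pool.Agent.Deltoid

/-- Radial monotonicity, first coordinate. -/
theorem radial_one {u : ℂ} (hu : ‖u‖ ≤ 1/4) {r : ℝ} (h0 : 0 ≤ r) (h1 : r ≤ 1) :
    r ^ 2 * (‖3 + 2 * ((r : ℂ) * u)‖ * ‖1 + u‖ ^ 2) ≤ ‖3 + 2 * u‖ * ‖1 + (r : ℂ) * u‖ ^ 2 := by
  have hru : ‖(r : ℂ) * u‖ = r * ‖u‖ := by
    rw [norm_mul, Complex.norm_real, Real.norm_of_nonneg h0]
  have hnu : 0 ≤ ‖u‖ := norm_nonneg u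
  have hm : ‖((1 - r : ℝ) : ℂ) * u‖ = (1 - r) * ‖u‖ := by
    rw [norm_mul, Complex.norm_real, Real.norm_of_nonneg (by linarith)]
  have a1 : ‖3 + 2 * ((r : ℂ) * u)‖ ≤ ‖3 + 2 * u‖ + 2 * ((1 - r) * ‖u‖) := by
    have e : 3 + 2 * ((r : ℂ) * u) = (3 + 2 * u) - 2 * (((1 - r : ℝ) : ℂ) * u) := by
      push_cast; ring
    rw [e]
    refine (norm_sub_le _ _).trans ?_
    rw [norm_mul 2, hm]
    simp
  have a2 : (5 : ℝ) / 2 ≤ ‖3 + 2 * u‖ := by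
    have : ‖(3 : ℂ)‖ ≤ ‖3 + 2 * u‖ + ‖2 * u‖ := by
      have e : (3 : ℂ) = (3 + 2 * u) - 2 * u := by ring
      calc ‖(3 : ℂ)‖ = ‖(3 + 2 * u) - 2 * u‖ := by rw [← e]
        _ ≤ _ := norm_sub_le _ _
    rw [norm_mul 2] at this
    simp at this
    linarith
  have b1 : ‖1 + u‖ ≤ ‖1 + (r : ℂ) * u‖ + (1 - r) * ‖u‖ := by
    have e : 1 + u = (1 + (r : ℂ) * u) + (((1 - r : ℝ) : ℂ) * u) := by
      push_cast; ring
    calc ‖1 + u‖ = ‖(1 + (r : ℂ) * u) + (((1 - r : ℝ) : ℂ) * u)‖ := by rw [← e]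
      _ ≤ _ := norm_add_le _ _
      _ = _ := by rw [hm]
  have b2 : (3 : ℝ) / 4 ≤ ‖1 + (r : ℂ) * u‖ := by
    have : ‖(1 : ℂ)‖ ≤ ‖1 + (r : ℂ) * u‖ + ‖(r : ℂ) * u‖ := by
      have e : (1 : ℂ) = (1 + (r : ℂ) * u) - (r : ℂ) * u := by ring
      calc ‖(1 : ℂ)‖ = ‖(1 + (r : ℂ) * u) - (r : ℂ) * u‖ := by rw [← e]
        _ ≤ _ := norm_sub_le _ _
    rw [hru, norm_one] at this
    nlinarith
  set m := 1 - r with hmdef
  have hm0 : 0 ≤ m := by linarith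
  have hm1 : m ≤ 1 := by linarith
  set A := ‖3 + 2 * u‖
  set B := ‖1 + (r : ℂ) * u‖
  have hA0 : 0 ≤ A := by linarith
  have hB0 : 0 ≤ B := by linarith
  have a3 : ‖3 + 2 * ((r : ℂ) * u)‖ ≤ A * (1 + m / 5) := by
    refine a1.trans ?_
    nlinarith [mul_nonneg hm0 (by linarith : (0:ℝ) ≤ 1/4 - ‖u‖), mul_nonneg hm0 (by linarith : (0:ℝ) ≤ A - 5/2)]
  have b3 : ‖1 + u‖ ≤ B * (1 + m / 3) := by
    refine b1.trans ?_
    nlinarith [mul_nonneg hm0 (by linarith : (0:ℝ) ≤ 1/4 - ‖u‖), mul_nonneg hm0 (by linarith : (0:ℝ) ≤ B - 3/4)]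
  have b4 : ‖1 + u‖ ^ 2 ≤ (B * (1 + m / 3)) ^ 2 := pow_le_pow_left₀ (norm_nonneg _) b3 2
  have c1 : ‖3 + 2 * ((r : ℂ) * u)‖ * ‖1 + u‖ ^ 2 ≤ (A * (1 + m / 5)) * (B * (1 + m / 3)) ^ 2 :=
    mul_le_mul a3 b4 (by positivity) (by positivity)
  have hr : r = 1 - m := by rw [hmdef]; ring
  have d1 : (1 - m) * (1 + m / 3) ≤ 1 := by nlinarith
  have d1' : 0 ≤ (1 - m) * (1 + m / 3) := mul_nonneg (by linarith) (by linarith)
  have d2 : (1 - m) * (1 + m / 3) * (1 + m / 5) ≤ 1 := by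
    have : (1 - m) * (1 + m / 3) ≤ 1 - 2 * m / 3 := by nlinarith
    nlinarith [mul_le_mul_of_nonneg_right this (by linarith : (0:ℝ) ≤ 1 + m / 5)]
  have d3 : r ^ 2 * ((1 + m / 5) * (1 + m / 3) ^ 2) ≤ 1 := by
    rw [hr]
    have : (1 - m) ^ 2 * ((1 + m / 5) * (1 + m / 3) ^ 2) =
      ((1 - m) * (1 + m / 3) * (1 + m / 5)) * ((1 - m) * (1 + m / 3)) := by ring
    rw [this]
    exact mul_le_one₀ d2 d1' d1
  calc r ^ 2 * (‖3 + 2 * ((r : ℂ) * u)‖ * ‖1 + u‖ ^ 2)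
      ≤ r ^ 2 * ((A * (1 + m / 5)) * (B * (1 + m / 3)) ^ 2) := mul_le_mul_of_nonneg_left c1 (by positivity)
    _ = (r ^ 2 * ((1 + m / 5) * (1 + m / 3) ^ 2)) * (A * B ^ 2) := by ring
    _ ≤ 1 * (A * B ^ 2) := mul_le_mul_of_nonneg_right d3 (by positivity)
    _ = A * B ^ 2 := one_mul _

/-- Radial monotonicity, second coordinate. -/
theorem radial_two {u : ℂ} (hu : ‖u‖ ≤ 1/4) {r : ℝ} (h0 : 0 ≤ r) (h1 : r ≤ 1) :
    r ^ 2 * (‖3 + (r : ℂ) * u‖ * ‖1 + u‖) ≤ ‖3 + u‖ * ‖1 + (r : ℂ) * u‖ := by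
  have hru : ‖(r : ℂ) * u‖ = r * ‖u‖ := by
    rw [norm_mul, Complex.norm_real, Real.norm_of_nonneg h0]
  have hnu : 0 ≤ ‖u‖ := norm_nonneg u
  have hm : ‖((1 - r : ℝ) : ℂ) * u‖ = (1 - r) * ‖u‖ := by
    rw [norm_mul, Complex.norm_real, Real.norm_of_nonneg (by linarith)]
  have a1 : ‖3 + (r : ℂ) * u‖ ≤ ‖3 + u‖ + (1 - r) * ‖u‖ := by
    have e : 3 + (r : ℂ) * u = (3 + u) - ((1 - r : ℝ) : ℂ) * u := by
      push_cast; ring
    rw [e]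
    refine (norm_sub_le _ _).trans ?_
    rw [hm]
  have a2 : (11 : ℝ) / 4 ≤ ‖3 + u‖ := by
    have : ‖(3 : ℂ)‖ ≤ ‖3 + u‖ + ‖u‖ := by
      have e : (3 : ℂ) = (3 + u) - u := by ring
      calc ‖(3 : ℂ)‖ = ‖(3 + u) - u‖ := by rw [← e]
        _ ≤ _ := norm_sub_le _ _
    simp at this
    linarith
  have b1 : ‖1 + u‖ ≤ ‖1 + (r : ℂ) * u‖ + (1 - r) * ‖u‖ := by
    have e : 1 + u = (1 + (r : ℂ) * u) + (((1 - r : ℝ) : ℂ) * u) := by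
      push_cast; ring
    calc ‖1 + u‖ = ‖(1 + (r : ℂ) * u) + (((1 - r : ℝ) : ℂ) * u)‖ := by rw [← e]
      _ ≤ _ := norm_add_le _ _
      _ = _ := by rw [hm]
  have b2 : (3 : ℝ) / 4 ≤ ‖1 + (r : ℂ) * u‖ := by
    have : ‖(1 : ℂ)‖ ≤ ‖1 + (r : ℂ) * u‖ + ‖(r : ℂ) * u‖ := by
      have e : (1 : ℂ) = (1 + (r : ℂ) * u) - (r : ℂ) * u := by ring
      calc ‖(1 : ℂ)‖ = ‖(1 + (r : ℂ) * u) - (r : ℂ) * u‖ := by rw [← e]
        _ ≤ _ := norm_sub_le _ _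
    rw [hru, norm_one] at this
    nlinarith
  set m := 1 - r with hmdef
  have hm0 : 0 ≤ m := by linarith
  have hm1 : m ≤ 1 := by linarith
  set A := ‖3 + u‖
  set B := ‖1 + (r : ℂ) * u‖
  have hA0 : 0 ≤ A := by linarith
  have hB0 : 0 ≤ B := by linarith
  have a3 : ‖3 + (r : ℂ) * u‖ ≤ A * (1 + m / 5) := by
    refine a1.trans ?_
    nlinarith [mul_nonneg hm0 (by linarith : (0:ℝ) ≤ 1/4 - ‖u‖), mul_nonneg hm0 (by linarith : (0:ℝ) ≤ A - 11/4)]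
  have b3 : ‖1 + u‖ ≤ B * (1 + m / 3) := by
    refine b1.trans ?_
    nlinarith [mul_nonneg hm0 (by linarith : (0:ℝ) ≤ 1/4 - ‖u‖), mul_nonneg hm0 (by linarith : (0:ℝ) ≤ B - 3/4)]
  have c1 : ‖3 + (r : ℂ) * u‖ * ‖1 + u‖ ≤ (A * (1 + m / 5)) * (B * (1 + m / 3)) :=
    mul_le_mul a3 b3 (by positivity) (by positivity)
  have hr : r = 1 - m := by rw [hmdef]; ring
  have d2 : (1 - m) * (1 + m / 3) * (1 + m / 5) ≤ 1 := by
    have : (1 - m) * (1 + m / 3) ≤ 1 - 2 * m / 3 := by nlinarith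
    nlinarith [mul_le_mul_of_nonneg_right this (by linarith : (0:ℝ) ≤ 1 + m / 5)]
  have d3 : r ^ 2 * ((1 + m / 5) * (1 + m / 3)) ≤ 1 := by
    rw [hr]
    have : (1 - m) ^ 2 * ((1 + m / 5) * (1 + m / 3)) =
      ((1 - m) * (1 + m / 3) * (1 + m / 5)) * (1 - m) := by ring
    rw [this]
    exact mul_le_one₀ d2 (by linarith) (by linarith)
  calc r ^ 2 * (‖3 + (r : ℂ) * u‖ * ‖1 + u‖)
      ≤ r ^ 2 * ((A * (1 + m / 5)) * (B * (1 + m / 3))) := mul_le_mul_of_nonneg_left c1 (by positivity)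
    _ = (r ^ 2 * ((1 + m / 5) * (1 + m / 3))) * (A * B) := by ring
    _ ≤ 1 * (A * B) := mul_le_mul_of_nonneg_right d3 (by positivity)
    _ = A * B := one_mul _

/-- Distance squared (in the two coordinates) at parameter `s` from the cusp `s = 1`. -/
noncomputable def gg (s : ℂ) : ℝ :=
  ‖2 * s + (s⁻¹) ^ 2 - 3‖ ^ 2 + ‖2 * s⁻¹ + s ^ 2 - 3‖ ^ 2

theorem norm_one_eq {s : ℂ} (hs : s ≠ 0) :
    ‖2 * s + (s⁻¹) ^ 2 - 3‖ = ‖s - 1‖ ^ 2 * ‖2 * s + 1‖ / ‖s‖ ^ 2 := by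
  rw [← norm_pow, ← norm_mul, ← norm_pow, ← norm_div]
  congr 1
  field_simp
  ring

theorem norm_two_eq {s : ℂ} (hs : s ≠ 0) :
    ‖2 * s⁻¹ + s ^ 2 - 3‖ = ‖s - 1‖ ^ 2 * ‖s + 2‖ / ‖s‖ := by
  rw [← norm_pow, ← norm_mul, ← norm_div]
  congr 1
  field_simp
  ring

theorem gg_radial {u : ℂ} (hu : ‖u‖ ≤ 1/4) {r : ℝ} (h0 : 0 ≤ r) (h1 : r ≤ 1) :
    gg (1 + (r : ℂ) * u) ≤ gg (1 + u) := by
  have hnu : 0 ≤ ‖u‖ := norm_nonneg u
  have hru : ‖(r : ℂ) * u‖ = r * ‖u‖ := by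
    rw [norm_mul, Complex.norm_real, Real.norm_of_nonneg h0]
  have p1 : 0 < ‖1 + u‖ := by
    rw [norm_pos_iff]
    intro h
    have : u = -1 := by linear_combination h
    rw [this] at hu
    norm_num at hu
  have p2 : 0 < ‖1 + (r : ℂ) * u‖ := by
    rw [norm_pos_iff]
    intro h
    have : (r : ℂ) * u = -1 := by linear_combination h
    rw [this] at hru
    simp at hru
    nlinarith
  have q1 : (1 + u) ≠ 0 := norm_pos_iff.mp p1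
  have q2 : (1 + (r : ℂ) * u) ≠ 0 := norm_pos_iff.mp p2
  unfold gg
  rw [norm_one_eq q1, norm_one_eq q2, norm_two_eq q1, norm_two_eq q2]
  have e1 : (1 + (r : ℂ) * u) - 1 = (r : ℂ) * u := by ring
  have e2 : (1 + u) - 1 = u := by ring
  have e3 : 2 * (1 + (r : ℂ) * u) + 1 = 3 + 2 * ((r : ℂ) * u) := by ring
  have e4 : 2 * (1 + u) + 1 = 3 + 2 * u := by ring
  have e5 : (1 + (r : ℂ) * u) + 2 = 3 + (r : ℂ) * u := by ring
  have e6 : (1 + u) + 2 = 3 + u := by ring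
  rw [e1, e2, e3, e4, e5, e6, hru]
  have i1 : (r * ‖u‖) ^ 2 * ‖3 + 2 * ((r : ℂ) * u)‖ / ‖1 + (r : ℂ) * u‖ ^ 2 ≤
      ‖u‖ ^ 2 * ‖3 + 2 * u‖ / ‖1 + u‖ ^ 2 := by
    rw [div_le_div_iff₀ (by positivity) (by positivity)]
    have := mul_le_mul_of_nonneg_left (radial_one hu h0 h1) (by positivity : 0 ≤ ‖u‖ ^ 2)
    nlinarith
  have i2 : (r * ‖u‖) ^ 2 * ‖3 + (r : ℂ) * u‖ / ‖1 + (r : ℂ) * u‖ ≤
      ‖u‖ ^ 2 * ‖3 + u‖ / ‖1 + u‖ := by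
    rw [div_le_div_iff₀ (by positivity) (by positivity)]
    have := mul_le_mul_of_nonneg_left (radial_two hu h0 h1) (by positivity : 0 ≤ ‖u‖ ^ 2)
    nlinarith
  exact add_le_add (pow_le_pow_left₀ (by positivity) i1 2) (pow_le_pow_left₀ (by positivity) i2 2)

theorem gg_small {s : ℂ} (hs : s ≠ 0) (h : gg s < (1/32) ^ 2) : ‖s - 1‖ < 1/4 := by
  unfold gg at h
  have h1 : ‖2 * s + (s⁻¹) ^ 2 - 3‖ < 1/32 := by
    refine lt_of_pow_lt_pow_left₀ 2 (by norm_num) ?_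
    nlinarith [sq_nonneg ‖2 * s⁻¹ + s ^ 2 - 3‖]
  have h2 : ‖2 * s⁻¹ + s ^ 2 - 3‖ < 1/32 := by
    refine lt_of_pow_lt_pow_left₀ 2 (by norm_num) ?_
    nlinarith [sq_nonneg ‖2 * s + (s⁻¹) ^ 2 - 3‖]
  rw [norm_one_eq hs] at h1
  rw [norm_two_eq hs] at h2
  have hp : 0 < ‖s‖ := norm_pos_iff.mpr hs
  have hd : 0 ≤ ‖s - 1‖ := norm_nonneg _
  rw [div_lt_iff₀ (by positivity)] at h1 h2
  by_contra hc
  push Not at hc
  have hd2 : 1/16 ≤ ‖s - 1‖ ^ 2 := by nlinarith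
  rcases le_total ‖s‖ 1 with hle | hge
  · have k1 : 1 ≤ ‖s + 2‖ := by
      have : ‖(2 : ℂ)‖ ≤ ‖s + 2‖ + ‖s‖ := by
        have e : (2 : ℂ) = (s + 2) - s := by ring
        calc ‖(2 : ℂ)‖ = ‖(s + 2) - s‖ := by rw [← e]
          _ ≤ _ := norm_sub_le _ _
      simp at this
      linarith
    nlinarith
  · have k1 : ‖s‖ ≤ ‖2 * s + 1‖ := by
      have : ‖2 * s‖ ≤ ‖2 * s + 1‖ + ‖(1 : ℂ)‖ := by
        have e : 2 * s = (2 * s + 1) - 1 := by ring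
        calc ‖2 * s‖ = ‖(2 * s + 1) - 1‖ := by rw [← e]
          _ ≤ _ := norm_sub_le _ _
      rw [norm_mul, norm_one] at this
      simp at this
      linarith
    have k2 : ‖s‖ ≤ 1 + ‖s - 1‖ := by
      have e : s = 1 + (s - 1) := by ring
      calc ‖s‖ = ‖1 + (s - 1)‖ := by rw [← e]
        _ ≤ ‖(1 : ℂ)‖ + ‖s - 1‖ := norm_add_le _ _
        _ = _ := by rw [norm_one]
    have k3 : ‖s - 1‖ ^ 2 * ‖s‖ ≤ ‖s - 1‖ ^ 2 * ‖2 * s + 1‖ :=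
      mul_le_mul_of_nonneg_left k1 (by positivity)
    have k4 : ‖s - 1‖ ^ 2 * ‖s‖ < 1/32 * ‖s‖ ^ 2 := lt_of_le_of_lt k3 h1
    have k5 : ‖s - 1‖ ^ 2 < 1/32 * ‖s‖ := by
      have : ‖s - 1‖ ^ 2 * ‖s‖ < (1/32 * ‖s‖) * ‖s‖ := by nlinarith
      exact lt_of_mul_lt_mul_right this hp.le
    nlinarith

/-- The punctured parameter neighbourhood. -/
def UU (δ : ℝ) : Set ℂ := {s : ℂ | s ≠ 0 ∧ s ≠ 1 ∧ gg s < δ ^ 2}

theorem punct_disc_preconnected (η : ℝ) (hη : 0 < η) :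
    IsPreconnected {s : ℂ | s ≠ 1 ∧ ‖s - 1‖ < η} := by
  have : {s : ℂ | s ≠ 1 ∧ ‖s - 1‖ < η} =
      (fun z : ℂ => 1 + Complex.exp z) '' {z : ℂ | z.re < Real.log η} := by
    ext s
    constructor
    · rintro ⟨h1, h2⟩
      have hs : s - 1 ≠ 0 := sub_ne_zero.mpr h1
      refine ⟨Complex.log (s - 1), ?_, ?_⟩
      · show (Complex.log (s - 1)).re < Real.log η
        rw [Complex.log_re]
        exact Real.log_lt_log (norm_pos_iff.mpr hs) h2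
      · show 1 + Complex.exp (Complex.log (s - 1)) = s
        rw [Complex.exp_log hs]
        ring
    · rintro ⟨z, hz, rfl⟩
      have hz' : z.re < Real.log η := hz
      refine ⟨?_, ?_⟩
      · intro h
        have : Complex.exp z = 0 := by linear_combination h
        exact Complex.exp_ne_zero z this
      · have e : (1 + Complex.exp z) - 1 = Complex.exp z := by ring
        show ‖(1 + Complex.exp z) - 1‖ < η
        rw [e, Complex.norm_exp]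
        exact (Real.lt_log_iff_exp_lt hη).mp hz'
  rw [this]
  refine IsPreconnected.image ?_ _ (by fun_prop)
  exact (convex_halfSpace_re_lt _).isPreconnected

theorem gg_continuousAt_one : ContinuousAt gg 1 := by
  have hi : ContinuousAt (fun s : ℂ => s⁻¹) 1 := continuousAt_inv₀ one_ne_zero
  unfold gg
  fun_prop (disch := norm_num)

theorem gg_one : gg 1 = 0 := by
  unfold gg; norm_num

theorem UU_preconnected {δ : ℝ} (hδ : 0 < δ) (hδ' : δ < 1/32) : IsPreconnected (UU δ) := by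
  have hev : ∀ᶠ s in nhds (1 : ℂ), gg s < δ ^ 2 :=
    gg_continuousAt_one.eventually_lt continuousAt_const (by rw [gg_one]; positivity)
  obtain ⟨η', hη', hball⟩ := Metric.eventually_nhds_iff.mp hev
  obtain ⟨η, hη, hη1, hη2⟩ : ∃ η : ℝ, 0 < η ∧ η ≤ η' ∧ η ≤ 1 :=
    ⟨min η' 1, lt_min hη' one_pos, min_le_left _ _, min_le_right _ _⟩
  have hD : {s : ℂ | s ≠ 1 ∧ ‖s - 1‖ < η} ⊆ UU δ := by
    rintro s ⟨h1, h2⟩
    refine ⟨?_, h1, ?_⟩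
    · rintro rfl
      norm_num at h2
      linarith
    · exact hball (by rw [dist_eq_norm]; exact lt_of_lt_of_le h2 hη1)
  -- base point
  have hb1 : ((η / 2 : ℝ) : ℂ) ≠ 0 := by
    exact_mod_cast (by positivity : η / 2 ≠ 0)
  have hbn : ‖((η / 2 : ℝ) : ℂ)‖ = η / 2 := by
    rw [Complex.norm_real, Real.norm_of_nonneg (by positivity)]
  have hbmem : (1 + ((η / 2 : ℝ) : ℂ)) ∈ {s : ℂ | s ≠ 1 ∧ ‖s - 1‖ < η} := by
    refine ⟨?_, ?_⟩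
    · intro h
      exact hb1 (by linear_combination h)
    · have e : (1 + ((η / 2 : ℝ) : ℂ)) - 1 = ((η / 2 : ℝ) : ℂ) := by ring
      show ‖(1 + ((η / 2 : ℝ) : ℂ)) - 1‖ < η
      rw [e, hbn]
      linarith
  refine isPreconnected_of_forall (1 + ((η / 2 : ℝ) : ℂ)) (fun y hy => ?_)
  obtain ⟨hy0, hy1, hyg⟩ := hy
  have hysm : ‖y - 1‖ < 1/4 := by
    refine gg_small hy0 (lt_trans hyg ?_)
    exact pow_lt_pow_left₀ hδ' hδ.le (by norm_num)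
  have hyn : y - 1 ≠ 0 := sub_ne_zero.mpr hy1
  -- ray
  let ρ : ℝ → ℂ := fun r => 1 + (r : ℂ) * (y - 1)
  have hρc : Continuous ρ := by
    show Continuous (fun r : ℝ => 1 + (r : ℂ) * (y - 1))
    fun_prop
  have hray : ρ '' Set.Ioc 0 1 ⊆ UU δ := by
    rintro _ ⟨r, ⟨hr0, hr1⟩, rfl⟩
    have hle := gg_radial hysm.le hr0.le hr1
    have e : 1 + (y - 1) = y := by ring
    rw [e] at hle
    have hrc : (r : ℂ) ≠ 0 := by exact_mod_cast hr0.ne'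
    refine ⟨?_, ?_, lt_of_le_of_lt hle hyg⟩
    · intro h
      have h' : (r : ℂ) * (y - 1) = -1 := by
        have : 1 + (r : ℂ) * (y - 1) = 0 := h
        linear_combination this
      have h'' : ‖(r : ℂ) * (y - 1)‖ = 1 := by rw [h']; simp
      rw [norm_mul, Complex.norm_real, Real.norm_of_nonneg hr0.le] at h''
      nlinarith [norm_nonneg (y - 1)]
    · intro h
      have h' : (r : ℂ) * (y - 1) = 0 := by
        have : 1 + (r : ℂ) * (y - 1) = 1 := h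
        linear_combination this
      rcases mul_eq_zero.mp h' with h2 | h2
      · exact hrc h2
      · exact hyn h2
  refine ⟨{s : ℂ | s ≠ 1 ∧ ‖s - 1‖ < η} ∪ ρ '' Set.Ioc 0 1, Set.union_subset hD hray, Or.inl hbmem, ?_, ?_⟩
  · right
    refine ⟨1, ⟨by norm_num, le_refl _⟩, ?_⟩
    show 1 + ((1 : ℝ) : ℂ) * (y - 1) = y
    push_cast
    ring
  · have hpos : 0 < ‖y - 1‖ := norm_pos_iff.mpr hyn
    have hη4 : η / 2 ≤ 1 := by linarith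
    have hpt : ρ (η / 2) ∈ {s : ℂ | s ≠ 1 ∧ ‖s - 1‖ < η} := by
      refine ⟨?_, ?_⟩
      · exact (hray ⟨η / 2, ⟨by positivity, hη4⟩, rfl⟩).2.1
      · have e : (1 + ((η / 2 : ℝ) : ℂ) * (y - 1)) - 1 = ((η / 2 : ℝ) : ℂ) * (y - 1) := by ring
        show ‖(1 + ((η / 2 : ℝ) : ℂ) * (y - 1)) - 1‖ < η
        rw [e, norm_mul, hbn]
        nlinarith
    refine IsPreconnected.union (ρ (η / 2)) hpt ⟨η / 2, ⟨by positivity, hη4⟩, rfl⟩
      (punct_disc_preconnected η hη) ?_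
    exact isPreconnected_Ioc.image _ hρc.continuousOn

/-- The cusp for a cube root of unity. -/
theorem ph_cube {ζ : ℂ} (hζ : ζ ^ 3 = 1) {s : ℂ} (hs : s ≠ 0) :
    ph (ζ * s) 0 = ζ * (2 * s + (s⁻¹) ^ 2) ∧ ph (ζ * s) 1 = ζ ^ 2 * (2 * s⁻¹ + s ^ 2) := by
  have hz : ζ ≠ 0 := by
    rintro rfl
    norm_num at hζ
  have hi : ζ⁻¹ = ζ ^ 2 := by
    field_simp
    linear_combination -hζ
  constructor
  · rw [ph_zero, mul_inv, hi]
    linear_combination (ζ * (s⁻¹) ^ 2) * hζ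
  · rw [ph_one, mul_inv, hi]
    ring

theorem norm_cube {ζ : ℂ} (hζ : ζ ^ 3 = 1) : ‖ζ‖ = 1 := by
  have : ‖ζ‖ ^ 3 = 1 := by rw [← norm_pow, hζ, norm_one]
  exact (pow_eq_one_iff_of_nonneg (norm_nonneg _) (by norm_num)).mp this

theorem local_set {ζ : ℂ} (hζ : ζ ^ 3 = 1) {δ : ℝ} :
    {q : Fin 2 → ℂ | MvPolynomial.eval q dp = 0 ∧ q ≠ ph ζ ∧
            ‖q 0 - ph ζ 0‖ ^ 2 + ‖q 1 - ph ζ 1‖ ^ 2 < δ ^ 2} =
      (fun s => ph (ζ * s)) '' (UU δ) := by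
  have hz : ζ ≠ 0 := by
    rintro rfl
    norm_num at hζ
  have hn : ‖ζ‖ = 1 := norm_cube hζ
  have h1 := ph_cube hζ (one_ne_zero)
  rw [mul_one] at h1
  have hp0 : ph ζ 0 = ζ * 3 := by rw [h1.1]; norm_num
  have hp1 : ph ζ 1 = ζ ^ 2 * 3 := by rw [h1.2]; norm_num
  have hdist : ∀ s : ℂ, s ≠ 0 →
      ‖ph (ζ * s) 0 - ph ζ 0‖ ^ 2 + ‖ph (ζ * s) 1 - ph ζ 1‖ ^ 2 = gg s := by
    intro s hs
    rw [(ph_cube hζ hs).1, (ph_cube hζ hs).2, hp0, hp1, ← mul_sub, ← mul_sub, norm_mul, norm_mul,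
      norm_pow, hn]
    unfold gg
    ring
  ext q
  constructor
  · rintro ⟨hq, hne, hd⟩
    obtain ⟨t, ht, rfl⟩ := exists_param hq
    have hts : ζ * (ζ⁻¹ * t) = t := by
      rw [← mul_assoc, mul_inv_cancel₀ hz, one_mul]
    have hs0 : ζ⁻¹ * t ≠ 0 := mul_ne_zero (inv_ne_zero hz) ht
    refine ⟨ζ⁻¹ * t, ⟨hs0, ?_, ?_⟩, ?_⟩
    · intro h
      apply hne
      rw [← hts, h, mul_one]
    · rw [← hdist _ hs0, hts]
      exact hd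
    · show ph (ζ * (ζ⁻¹ * t)) = ph t
      rw [hts]
  · rintro ⟨s, ⟨hs0, hs1, hg⟩, rfl⟩
    refine ⟨ph_mem (mul_ne_zero hz hs0), ?_, ?_⟩
    · intro h
      have := ph_inj (mul_ne_zero hz hs0) hz h
      apply hs1
      have h2 : ζ * (s - 1) = 0 := by linear_combination this
      rcases mul_eq_zero.mp h2 with h3 | h3
      · exact absurd h3 hz
      · linear_combination h3
    · show ‖ph (ζ * s) 0 - ph ζ 0‖ ^ 2 + ‖ph (ζ * s) 1 - ph ζ 1‖ ^ 2 < δ ^ 2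
      rw [hdist s hs0]
      exact hg

theorem ph_continuousOn {ζ : ℂ} (hζ : ζ ≠ 0) (S : Set ℂ) (hS : ∀ s ∈ S, s ≠ 0) :
    ContinuousOn (fun s => ph (ζ * s)) S := by
  have hinv : ContinuousOn (fun s : ℂ => (ζ * s)⁻¹) S := by
    refine ContinuousOn.inv₀ (by fun_prop) (fun s hs => mul_ne_zero hζ (hS s hs))
  refine continuousOn_pi.mpr (fun i => ?_)
  fin_cases i
  · show ContinuousOn (fun s : ℂ => 2 * (ζ * s) + ((ζ * s)⁻¹) ^ 2) S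
    exact (ContinuousOn.add (by fun_prop) (hinv.pow 2))
  · show ContinuousOn (fun s : ℂ => 2 * (ζ * s)⁻¹ + (ζ * s) ^ 2) S
    exact (ContinuousOn.add (continuousOn_const.mul hinv) (by fun_prop))

theorem local_preconnected {ζ : ℂ} (hζ : ζ ^ 3 = 1) {δ : ℝ} (h0 : 0 < δ) (h1 : δ < 1/32) :
    IsPreconnected {q : Fin 2 → ℂ | MvPolynomial.eval q dp = 0 ∧ q ≠ ph ζ ∧
            ‖q 0 - ph ζ 0‖ ^ 2 + ‖q 1 - ph ζ 1‖ ^ 2 < δ ^ 2} := by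
  have hz : ζ ≠ 0 := by
    rintro rfl
    norm_num at hζ
  rw [local_set hζ]
  exact (UU_preconnected h0 h1).image _ (ph_continuousOn hz _ (fun s hs => hs.1))

end Pool.Agent.Deltoid
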