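import Pool.Agent.Deltoid.Alg

set_option autoImplicit false

namespace Pool.Agent.Deltoid

/-- The parametrisation on the punctured plane. -/
noncomputable def phi : {z : ℂ // z ≠ 0} → (Fin 2 → ℂ) := fun t => ph t.1

theorem phi_cont : Continuous phi := by
  have hinv : Continuous (fun t : {z : ℂ // z ≠ 0} => (t.1)⁻¹) :=
    Continuous.inv₀ continuous_subtype_val (fun t => t.2)
  refine continuous_pi (fun i => ?_)
  fin_cases i
  · show Continuous (fun t : {z : ℂ // z ≠ 0} => 2 * t.1 + (t.1⁻¹) ^ 2)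
    exact (continuous_const.mul continuous_subtype_val).add (hinv.pow 2)
  · show Continuous (fun t : {z : ℂ // z ≠ 0} => 2 * t.1⁻¹ + t.1 ^ 2)
    exact (continuous_const.mul hinv).add (continuous_subtype_val.pow 2)

theorem phi_inj : Function.Injective phi := by
  intro s t h
  exact Subtype.ext (ph_inj s.2 t.2 h)

theorem bound_aux {M : ℝ} (hM : 0 ≤ M) {u v : ℂ} (huv : ‖u‖ * ‖v‖ = 1)
    (h : ‖2 * u + v ^ 2‖ ≤ M) : ‖v‖ ≤ M + 3 := by
  by_contra hc
  push Not at hc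
  have hv1 : 1 ≤ ‖v‖ := by linarith
  have hu1 : ‖u‖ ≤ 1 := by
    have h0 : 0 ≤ ‖u‖ := norm_nonneg u
    nlinarith
  have h1 : ‖v‖ ^ 2 ≤ ‖2 * u + v ^ 2‖ + ‖2 * u‖ := by
    have : ‖v ^ 2‖ = ‖v‖ ^ 2 := norm_pow v 2
    rw [← this]
    have e : v ^ 2 = (2 * u + v ^ 2) - 2 * u := by ring
    calc ‖v ^ 2‖ = ‖(2 * u + v ^ 2) - 2 * u‖ := by rw [← e]
      _ ≤ _ := norm_sub_le _ _
  have h2 : ‖2 * u‖ = 2 * ‖u‖ := by
    rw [norm_mul]; simp
  nlinarith

theorem isCompact_shell (R : ℝ) (hR : 0 < R) :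
    IsCompact {t : {z : ℂ // z ≠ 0} | ‖t.1‖ ≤ R ∧ ‖(t.1)⁻¹‖ ≤ R} := by
  rw [Subtype.isCompact_iff]
  have : (Subtype.val '' {t : {z : ℂ // z ≠ 0} | ‖t.1‖ ≤ R ∧ ‖(t.1)⁻¹‖ ≤ R}) =
      Metric.closedBall (0 : ℂ) R ∩ {z : ℂ | 1 ≤ R * ‖z‖} := by
    ext z
    constructor
    · rintro ⟨t, ⟨h1, h2⟩, rfl⟩
      refine ⟨by simpa using h1, ?_⟩
      have ht : 0 < ‖t.1‖ := norm_pos_iff.mpr t.2
      rw [norm_inv] at h2
      have := mul_le_mul_of_nonneg_right h2 ht.le
      rw [inv_mul_cancel₀ ht.ne'] at this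
      exact this
    · rintro ⟨h1, h2⟩
      have hz : z ≠ 0 := by
        rintro rfl
        simp at h2
        linarith
      have hz' : 0 < ‖z‖ := norm_pos_iff.mpr hz
      refine ⟨⟨z, hz⟩, ⟨by simpa using h1, ?_⟩, rfl⟩
      show ‖z⁻¹‖ ≤ R
      rw [norm_inv]
      rw [inv_le_iff_one_le_mul₀ hz']
      exact h2
  rw [this]
  refine (isCompact_closedBall _ _).inter_right ?_
  exact isClosed_le continuous_const (continuous_const.mul continuous_norm)

theorem phi_proper : IsProperMap phi := by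
  rw [isProperMap_iff_isCompact_preimage]
  refine ⟨phi_cont, fun K hK => ?_⟩
  obtain ⟨M, hM⟩ := hK.isBounded.exists_norm_le
  have hM' : ∀ z ∈ K, ‖z‖ ≤ max M 0 := fun z hz => (hM z hz).trans (le_max_left _ _)
  have h0 : 0 ≤ max M 0 := le_max_right _ _
  refine (isCompact_shell (max M 0 + 3) (by linarith)).of_isClosed_subset
    (hK.isClosed.preimage phi_cont) ?_
  intro t ht
  have hb := hM' _ ht
  have hb0 : ‖phi t 0‖ ≤ max M 0 := (norm_le_pi_norm (phi t) 0).trans hb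
  have hb1 : ‖phi t 1‖ ≤ max M 0 := (norm_le_pi_norm (phi t) 1).trans hb
  have hn : ‖t.1‖ * ‖(t.1)⁻¹‖ = 1 := by
    rw [← norm_mul, mul_inv_cancel₀ t.2, norm_one]
  refine ⟨?_, ?_⟩
  · exact bound_aux h0 (u := (t.1)⁻¹) (v := t.1) (by rw [mul_comm]; exact hn) hb1
  · exact bound_aux h0 (u := t.1) (v := (t.1)⁻¹) hn hb0

theorem range_phi : Set.range phi = {z : Fin 2 → ℂ | MvPolynomial.eval z dp = 0} := by
  ext z
  constructor
  · rintro ⟨t, rfl⟩
    exact ph_mem t.2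
  · intro hz
    obtain ⟨t, ht, h⟩ := exists_param hz
    exact ⟨⟨t, ht⟩, h⟩

/-- The deltoid is homeomorphic to the punctured plane. -/
noncomputable def homeo : {z : ℂ // z ≠ 0} ≃ₜ ↥{z : Fin 2 → ℂ | MvPolynomial.eval z dp = 0} :=
  (Topology.IsClosedEmbedding.of_continuous_injective_isClosedMap phi_cont phi_inj
    phi_proper.isClosedMap).isEmbedding.toHomeomorph.trans (Homeomorph.setCongr range_phi)

theorem isCyclic_pi1 (x₀ : ↥{z : Fin 2 → ℂ | MvPolynomial.eval z dp = 0}) :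
    IsCyclic (FundamentalGroup ↥{z : Fin 2 → ℂ | MvPolynomial.eval z dp = 0} x₀) := by
  have hc := Complex.isAddQuotientCoveringMap_exp.homeomorph_comp homeo
  obtain ⟨e, he⟩ := hc.surjective x₀
  have E := hc.fundamentalGroupEquiv (x := x₀) ⟨e, he⟩
  have hz : IsAddCyclic (AddSubgroup.zmultiples (2 * Real.pi * Complex.I)) := inferInstance
  have hm : IsCyclic (Multiplicative (AddSubgroup.zmultiples (2 * Real.pi * Complex.I))) := inferInstance
  obtain ⟨g, hg⟩ := hm.exists_generator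
  have hop : IsCyclic (Multiplicative (AddSubgroup.zmultiples (2 * Real.pi * Complex.I)))ᵐᵒᵖ := by
    refine ⟨⟨MulOpposite.op g, fun x => ?_⟩⟩
    obtain ⟨n, hn⟩ := hg x.unop
    refine ⟨n, ?_⟩
    have : MulOpposite.op (g ^ n) = x := by
      rw [show g ^ n = x.unop from hn]; rfl
    simpa using this
  exact isCyclic_of_surjective E.symm E.symm.surjective

theorem finrank_le (x₀ : ↥{z : Fin 2 → ℂ | MvPolynomial.eval z dp = 0}) :
    Module.finrank ℤ
          (Additive (Abelianization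
            (FundamentalGroup ↥{z : Fin 2 → ℂ | MvPolynomial.eval z dp = 0} x₀))) ≤ 1 := by
  obtain ⟨g, hg⟩ := (isCyclic_pi1 x₀).exists_generator
  refine finrank_le_one (Additive.ofMul (Abelianization.of g)) (fun w => ?_)
  obtain ⟨x, hx⟩ : ∃ x, Abelianization.of x = Additive.toMul w :=
    QuotientGroup.mk_surjective (Additive.toMul w)
  obtain ⟨n, hn⟩ := hg x
  refine ⟨n, ?_⟩
  have : Abelianization.of g ^ n = Abelianization.of x := by
    rw [← map_zpow]
    exact congrArg _ hn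
  rw [← ofMul_zpow, this, hx]
  rfl

end Pool.Agent.Deltoid
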